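import Pool.Agent.H657R3.SC16

/-!
# MP_1521c4_an : harmonic functions with fully supported energy measure on the Sierpinski carpet
-/

set_option autoImplicit false

open Set Topology MeasureTheory

namespace Pool.Agent.Results.MP_1521c4_an.FullSupport

open Pool.Agent.H657R3.SC

/-- `carpet` is the attractor of the eight maps `psi i` -/
theorem carpet_attractor : IsCompact carpet ∧ carpet.Nonempty ∧ carpet = ⋃ i : Idx, psi i '' carpet := by
  refine ⟨isCompact_carpet, ⟨0, bdry_mem (by simp [usq]) (Or.inl rfl)⟩, ?_⟩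
  apply Subset.antisymm
  · intro z hz
    obtain ⟨i, w, hw, rfl⟩ := carpet_cover hz
    exact mem_iUnion.2 ⟨i, w, hw, rfl⟩
  · apply iUnion_subset
    rintro i _ ⟨w, hw, rfl⟩
    exact psi_mem hw i

/-- There is a function `h` harmonic off the outer boundary whose energy measure `Γ` (which exists
and is unique) has full support. -/
theorem result (F : Set Fn) (E : Fn → Fn → ℝ) (μ : Measure Carpet)
    (hμ : IsSelfSimilarMeasure μ) (hF : CanonicalForm F E μ) :
    ∃ h, IsHarmonic F E h ∧ ∃ Γ : Measure Carpet, (∀ Γ', IsEnergyMeasure F E h Γ' ↔ Γ' = Γ) ∧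
      ∀ U : Set Carpet, IsOpen U → U.Nonempty → 0 < Γ U :=
  main hμ hF

end Pool.Agent.Results.MP_1521c4_an.FullSupport
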